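import Mathlib
import Pool.Agent.Results.MP_b771e3_an.FourthPower

/-!
MP_913432_an, Q1 for sequences with diagonal linear parts and `D ^ 4 < C`.
-/

set_option autoImplicit false

namespace Pool.Agent.Results.MP_913432_an.DiagonalFourthPower

open Filter Topology

theorem core :
    ∀ (f : ℕ → (EuclideanSpace ℂ (Fin 2) ≃ EuclideanSpace ℂ (Fin 2))) (C D : ℝ),
    (∀ n, Differentiable ℂ (⇑(f n))) → (∀ n, Differentiable ℂ (⇑(f n).symm)) →
    0 < C → C < D → D < 1 →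
    (∀ (n : ℕ) (z : EuclideanSpace ℂ (Fin 2)), ‖z‖ < 1 →
        C * ‖z‖ ≤ ‖(f n) z‖ ∧ ‖(f n) z‖ ≤ D * ‖z‖) →
    D ^ 4 < C →
    (∀ n, ∃ d : Fin 2 → ℂ, ∀ (v : EuclideanSpace ℂ (Fin 2)) (i : Fin 2),
        fderiv ℂ (f n) 0 v i = d i * v i) →
    ∀ (F : ℕ → EuclideanSpace ℂ (Fin 2) → EuclideanSpace ℂ (Fin 2)),
      F 0 = id → (∀ n, F (n + 1) = (⇑(f n)) ∘ F n) →
    ∀ p : EuclideanSpace ℂ (Fin 2),
      Tendsto (fun n => F n p) atTop (𝓝 0) →
      ∃ Φ : EuclideanSpace ℂ (Fin 2) → EuclideanSpace ℂ (Fin 2),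
        Differentiable ℂ Φ ∧ Φ 0 = p ∧
        (∀ z, Tendsto (fun n => F n (Φ z)) atTop (𝓝 0)) ∧
        ∀ z, LinearMap.det (fderiv ℂ Φ z).toLinearMap ≠ 0 := by
  intro f C D hf hfs hC hCltD hD hbd hCD hdiag F hF0 hF p hp
  obtain ⟨φ, ψ, d1, d2, hr, e1, e2⟩ :=
    Pool.Agent.Results.MP_b771e3_an.FourthPower.result (fun n => f n) C D hC hD hCD hf
      (fun n => ⟨(f n).symm, hfs n, (f n).symm_apply_apply, (f n).apply_symm_apply⟩) hbd hdiag
  have hmem : ∀ z, z ∈ {z | ∃ x : ℕ → EuclideanSpace ℂ (Fin 2), x 0 = z ∧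
      (∀ k, x (k + 1) = f k (x k)) ∧ Tendsto x atTop (nhds 0)} ↔
      Tendsto (fun n => F n z) atTop (𝓝 0) := by
    intro z
    constructor
    · rintro ⟨x, h1, h2, h3⟩
      have : ∀ n, x n = F n z := by
        intro n
        induction n with
        | zero => rw [h1, hF0]; rfl
        | succ n ih => rw [h2, ih, hF]; rfl
      exact h3.congr this
    · intro h
      exact ⟨fun n => F n z, congrFun hF0 z, fun k => congrFun (hF k) z, h⟩
  have hset : {z | ∃ x : ℕ → EuclideanSpace ℂ (Fin 2), x 0 = z ∧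
      (∀ k, x (k + 1) = f k (x k)) ∧ Tendsto x atTop (nhds 0)} =
      {z | Tendsto (fun n => F n z) atTop (𝓝 0)} := Set.ext hmem
  rw [hset] at d1
  -- the basin is open
  have cont : ∀ n, Continuous (F n) := by
    intro n
    induction n with
    | zero => rw [hF0]; exact continuous_id
    | succ n ih => rw [hF]; exact (hf n).continuous.comp ih
  have key : ∀ n z, ‖F n z‖ < 1 → Tendsto (fun n => F n z) atTop (𝓝 0) := by
    intro n z hz
    have hstep : ∀ k, ‖F (k + n) z‖ < 1 ∧ ‖F (k + n) z‖ ≤ D ^ k := by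
      intro k
      induction k with
      | zero => simpa using ⟨hz, hz.le⟩
      | succ k ih =>
        have e : F (k + 1 + n) z = f (k + n) (F (k + n) z) := by
          rw [show k + 1 + n = k + n + 1 by omega, hF]
          rfl
        have h1 := (hbd (k + n) _ ih.1).2
        rw [e]
        have hD0 : 0 ≤ D := (hC.trans hCltD).le
        constructor
        · calc _ ≤ D * ‖F (k + n) z‖ := h1
            _ ≤ 1 * ‖F (k + n) z‖ := mul_le_mul_of_nonneg_right hD.le (norm_nonneg _)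
            _ < 1 := by rw [one_mul]; exact ih.1
        · calc _ ≤ D * ‖F (k + n) z‖ := h1
            _ ≤ D * D ^ k := mul_le_mul_of_nonneg_left ih.2 hD0
            _ = D ^ (k + 1) := by ring
    rw [← tendsto_add_atTop_iff_nat n]
    refine squeeze_zero_norm (fun k => (hstep k).2) ?_
    exact tendsto_pow_atTop_nhds_zero_of_lt_one (hC.trans hCltD).le hD
  have hopen : IsOpen {z | Tendsto (fun n => F n z) atTop (𝓝 0)} := by
    have : {z | Tendsto (fun n => F n z) atTop (𝓝 0)} =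
        ⋃ n, F n ⁻¹' Metric.ball 0 1 := by
      ext z
      rw [Set.mem_iUnion]
      constructor
      · intro h
        have h1 : ∀ᶠ n in atTop, F n z ∈ Metric.ball (0 : EuclideanSpace ℂ (Fin 2)) 1 :=
          h (Metric.ball_mem_nhds _ one_pos)
        exact h1.exists
      · rintro ⟨n, hn⟩
        refine key n z ?_
        simpa using hn
    rw [this]
    exact isOpen_iUnion fun n => Metric.isOpen_ball.preimage (cont n)
  have hne : ∀ w, LinearMap.det (fderiv ℂ ψ w).toLinearMap ≠ 0 := by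
    intro w h0
    have hm : ψ w ∈ {z | Tendsto (fun n => F n z) atTop (𝓝 0)} := (hmem _).1 (hr w)
    have h1 : HasFDerivAt φ (fderiv ℂ φ (ψ w)) (ψ w) :=
      ((d1 _ hm).differentiableAt (hopen.mem_nhds hm)).hasFDerivAt
    have h2 : HasFDerivAt ψ (fderiv ℂ ψ w) w := (d2 w).hasFDerivAt
    have h3 := h1.comp w h2
    have h4 : φ ∘ ψ = id := funext e2
    rw [h4] at h3
    have h5 := h3.unique (hasFDerivAt_id w)
    have h6 : LinearMap.comp (fderiv ℂ φ (ψ w)).toLinearMap (fderiv ℂ ψ w).toLinearMap =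
        LinearMap.id := by
      ext1 v
      exact congrArg (fun L : EuclideanSpace ℂ (Fin 2) →L[ℂ] EuclideanSpace ℂ (Fin 2) => L v) h5
    have h7 := congrArg LinearMap.det h6
    rw [LinearMap.det_comp, h0, mul_zero, LinearMap.det_id] at h7
    exact zero_ne_one h7
  refine ⟨fun w => ψ (w + φ p), d2.comp (differentiable_id.add_const _), ?_, ?_, ?_⟩
  · simp only [zero_add]
    exact e1 p ((hmem p).2 hp)
  · intro z
    exact (hmem _).1 (hr _)
  · intro z
    have h1 : fderiv ℂ (fun w => ψ (w + φ p)) z = fderiv ℂ ψ (z + φ p) := by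
      rw [fderiv_comp_add_right]
    rw [h1]
    exact hne _

/-- `ℂ²` with the Euclidean norm. -/
abbrev V : Type := EuclideanSpace ℂ (Fin 2)

/-- The `f n` are holomorphic automorphisms of `ℂ²` with `C ‖z‖ ≤ ‖f n z‖ ≤ D ‖z‖` on the open
unit ball, `0 < C < D < 1`. -/
def Attracting (f : ℕ → (V ≃ V)) (C D : ℝ) : Prop :=
  (∀ n, Differentiable ℂ (⇑(f n))) ∧ (∀ n, Differentiable ℂ (⇑(f n).symm)) ∧
    0 < C ∧ C < D ∧ D < 1 ∧
    ∀ (n : ℕ) (z : V), ‖z‖ < 1 → C * ‖z‖ ≤ ‖(f n) z‖ ∧ ‖(f n) z‖ ≤ D * ‖z‖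

/-- Every derivative at the origin is diagonal. -/
def DiagonalParts (f : ℕ → (V ≃ V)) : Prop :=
  ∀ n, ∃ d : Fin 2 → ℂ, ∀ (v : V) (i : Fin 2), fderiv ℂ (f n) 0 v i = d i * v i

/-- `f (n-1) ∘ ⋯ ∘ f 0`. -/
def comp (f : ℕ → (V ≃ V)) : ℕ → V → V
  | 0 => id
  | n + 1 => (⇑(f n)) ∘ comp f n

/-- The basin `{z | f (n-1) ∘ ⋯ ∘ f 0 (z) → 0}`. -/
def basin (f : ℕ → (V ≃ V)) : Set V := {z | Tendsto (fun n => comp f n z) atTop (𝓝 0)}

theorem result (f : ℕ → (V ≃ V)) (C D : ℝ) (hf : Attracting f C D) (hCD : D ^ 4 < C)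
    (hd : DiagonalParts f) (p : V) (hp : p ∈ basin f) :
    ∃ Φ : V → V, Differentiable ℂ Φ ∧ Φ 0 = p ∧ (∀ z, Φ z ∈ basin f) ∧
      ∀ z, LinearMap.det (fderiv ℂ Φ z).toLinearMap ≠ 0 :=
  core f C D hf.1 hf.2.1 hf.2.2.1 hf.2.2.2.1 hf.2.2.2.2.1 hf.2.2.2.2.2 hCD hd (comp f) rfl
    (fun _ => rfl) p hp

end Pool.Agent.Results.MP_913432_an.DiagonalFourthPower
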